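import Mathlib

set_option autoImplicit false

/-!
Counting functions whose values on a set of indices are restricted by two other values; averaging.
-/

open Finset

namespace Pool.Agent.W2helper94.DK

/-- The functions `f` with `f l ∈ T (f i) (f j)` for all `l ∈ L`. -/
theorem card_restricted {ι G : Type} [Fintype ι] [DecidableEq ι] [Fintype G] [DecidableEq G]
    (T : G → G → Finset G) (t : ℕ) (hT : ∀ a b, (T a b).card ≤ t) (i j : ι) (hij : i ≠ j)
    (L : Finset ι) (hi : i ∉ L) (hj : j ∉ L) :
    (univ.filter (fun f : ι → G => ∀ l ∈ L, f l ∈ T (f i) (f j))).card ≤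
      t ^ L.card * Fintype.card G ^ (Fintype.card ι - L.card) := by
  classical
  set q := Fintype.card G with hq
  -- the sets
  set S : G → G → ι → Finset G := fun a b m =>
    if m ∈ L then T a b else if m = i then {a} else if m = j then {b} else univ with hS
  have hsub : univ.filter (fun f : ι → G => ∀ l ∈ L, f l ∈ T (f i) (f j)) ⊆
      univ.biUnion (fun ab : G × G => Fintype.piFinset (S ab.1 ab.2)) := by
    intro f hf
    rw [mem_filter] at hf
    rw [mem_biUnion]
    refine ⟨(f i, f j), mem_univ _, ?_⟩
    rw [Fintype.mem_piFinset]
    intro m
    simp only [hS]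
    split_ifs with h1 h2 h3
    · exact hf.2 m h1
    · rw [h2]; exact mem_singleton_self _
    · rw [h3]; exact mem_singleton_self _
    · exact mem_univ _
  have hcard : ∀ a b, (Fintype.piFinset (S a b)).card ≤
      t ^ L.card * q ^ (Fintype.card ι - L.card - 2) := by
    intro a b
    rw [Fintype.card_piFinset]
    calc ∏ m, (S a b m).card ≤ ∏ m, (if m ∈ L then t else if m ∈ ({i, j} : Finset ι) then 1 else q) := by
          apply Finset.prod_le_prod' 
          intro m _
          simp only [hS]
          by_cases h1 : m ∈ L
          · rw [if_pos h1, if_pos h1]; exact hT a b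
          · rw [if_neg h1, if_neg h1]
            by_cases h2 : m = i
            · rw [if_pos h2, h2, if_pos (by simp)]; simp
            · rw [if_neg h2]
              by_cases h3 : m = j
              · rw [if_pos h3, h3, if_pos (by simp)]; simp
              · rw [if_neg h3, if_neg (by simp [h2, h3])]
                rw [hq, ← Finset.card_univ]
      _ = t ^ L.card * q ^ (Fintype.card ι - L.card - 2) := by
          rw [Finset.prod_ite, Finset.prod_ite]
          rw [Finset.prod_const, Finset.prod_const, Finset.prod_const, one_pow, one_mul]
          congr 2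
          · congr 1
            ext m
            simp
          · have h1 : (univ.filter (fun m : ι => m ∉ L)).filter (fun m => m ∉ ({i, j} : Finset ι)) =
                (univ \ L) \ {i, j} := by
              ext m
              simp
            rw [h1, Finset.card_sdiff_of_subset, Finset.card_sdiff_of_subset (subset_univ _),
              Finset.card_univ, Finset.card_pair hij]
            intro m hm
            rw [mem_sdiff]
            refine ⟨mem_univ _, ?_⟩
            rw [mem_insert, mem_singleton] at hm
            rcases hm with rfl | rfl
            · exact hi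
            · exact hj
  have h2 : 2 ≤ Fintype.card ι - L.card := by
    have h3 : L ∪ {i, j} ⊆ univ := subset_univ _
    have h4 := Finset.card_le_card h3
    rw [Finset.card_union_of_disjoint, Finset.card_pair hij, Finset.card_univ] at h4
    · omega
    · rw [Finset.disjoint_right]
      intro m hm
      rw [mem_insert, mem_singleton] at hm
      rcases hm with rfl | rfl
      · exact hi
      · exact hj
  calc _ ≤ (univ.biUnion (fun ab : G × G => Fintype.piFinset (S ab.1 ab.2))).card :=
        Finset.card_le_card hsub
    _ ≤ ∑ ab : G × G, (Fintype.piFinset (S ab.1 ab.2)).card := Finset.card_biUnion_le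
    _ ≤ ∑ _ab : G × G, t ^ L.card * q ^ (Fintype.card ι - L.card - 2) :=
        Finset.sum_le_sum (fun ab _ => hcard ab.1 ab.2)
    _ = q ^ 2 * (t ^ L.card * q ^ (Fintype.card ι - L.card - 2)) := by
        rw [Finset.sum_const, Finset.card_univ, Fintype.card_prod, smul_eq_mul, ← hq, sq]
    _ = t ^ L.card * q ^ (Fintype.card ι - L.card) := by
        have e : Fintype.card ι - L.card = (Fintype.card ι - L.card - 2) + 2 := by omega
        rw [e, pow_add, Nat.add_sub_cancel]
        ring

/-- The functions with `f i = f j`. -/
theorem card_eq_pair {ι G : Type} [Fintype ι] [DecidableEq ι] [Fintype G] [DecidableEq G]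
    (i j : ι) (hij : i ≠ j) :
    (univ.filter (fun f : ι → G => f i = f j)).card ≤ Fintype.card G ^ (Fintype.card ι - 1) := by
  classical
  have hj : j ∉ ({i} : Finset ι) := by simp [hij.symm]
  -- restrict to the complement of `i`
  set F : (ι → G) → ({m : ι // m ≠ i} → G) := fun f m => f m.1 with hF
  have hinj : Set.InjOn F (univ.filter (fun f : ι → G => f i = f j) : Finset (ι → G)) := by
    intro f hf g hg hfg
    have hf' : f i = f j := by simpa using hf
    have hg' : g i = g j := by simpa using hg
    funext m
    by_cases hm : m = i
    · rw [hm, hf', hg']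
      exact congrFun hfg ⟨j, hij.symm⟩
    · exact congrFun hfg ⟨m, hm⟩
  calc _ ≤ (univ : Finset ({m : ι // m ≠ i} → G)).card :=
        Finset.card_le_card_of_injOn F (fun f _ => by simp) hinj
    _ = Fintype.card G ^ (Fintype.card ι - 1) := by
        rw [Finset.card_univ, Fintype.card_fun]
        congr 1
        rw [Fintype.card_subtype_compl, Fintype.card_subtype_eq]

/-- Averaging. -/
theorem exists_le_avg {Ω : Type} [Fintype Ω] [Nonempty Ω] (X : Ω → ℕ) {B : ℝ}
    (h : (∑ f, (X f : ℝ)) ≤ B * Fintype.card Ω) : ∃ f, (X f : ℝ) ≤ B := by
  by_contra hcon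
  push Not at hcon
  have h1 : ∑ _f : Ω, B < ∑ f, (X f : ℝ) := by
    apply Finset.sum_lt_sum_of_nonempty
    · exact Finset.univ_nonempty
    · intro f _
      exact hcon f
  rw [Finset.sum_const, Finset.card_univ, nsmul_eq_mul] at h1
  linarith

end Pool.Agent.W2helper94.DK
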