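import Pool.Agent.W2helper94.DK.A

set_option autoImplicit false

/-!
A grid of centres; the centres near a segment; sets of disks which are met by a line.
-/

open Finset

namespace Pool.Agent.W2helper94.DK

/-- The plane. -/
abbrev E2 : Type := EuclideanSpace ℝ (Fin 2)

/-- The points of the grid. -/
noncomputable def gp (M : ℕ) (a : Fin M × Fin M) : E2 :=
  !₂[(a.1 : ℝ) / (2 * M) - 1 / 4, (a.2 : ℝ) / (2 * M) - 1 / 4]

theorem card_interval (M : ℕ) (c L : ℝ) (hL : 0 ≤ L) :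
    ((univ.filter (fun i : Fin M => |(i : ℝ) - c| ≤ L)).card : ℝ) ≤ 2 * L + 1 := by
  have h1 : (univ.filter (fun i : Fin M => |(i : ℝ) - c| ≤ L)).card ≤ (Icc ⌈c - L⌉ ⌊c + L⌋).card := by
    apply Finset.card_le_card_of_injOn (fun i : Fin M => ((i : ℕ) : ℤ))
    · intro i hi
      have hi' : |(i : ℝ) - c| ≤ L := by simpa using hi
      rw [abs_le] at hi'
      simp only [coe_Icc, Set.mem_Icc]
      constructor
      · rw [Int.ceil_le]
        push_cast
        linarith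
      · rw [Int.le_floor]
        push_cast
        linarith
    · intro i _ j _ hij
      have h0 : ((i : ℕ) : ℤ) = ((j : ℕ) : ℤ) := hij
      exact Fin.ext (by exact_mod_cast h0)
  rw [Int.card_Icc] at h1
  have h2 : (((⌊c + L⌋ + 1 - ⌈c - L⌉).toNat : ℕ) : ℝ) ≤ 2 * L + 1 := by
    rcases le_or_gt 0 (⌊c + L⌋ + 1 - ⌈c - L⌉) with h | h
    · have e : (((⌊c + L⌋ + 1 - ⌈c - L⌉).toNat : ℕ) : ℝ) = ((⌊c + L⌋ + 1 - ⌈c - L⌉ : ℤ) : ℝ) := by
        have h3 := Int.toNat_of_nonneg h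
        have h4 : (((⌊c + L⌋ + 1 - ⌈c - L⌉).toNat : ℤ) : ℝ) = ((⌊c + L⌋ + 1 - ⌈c - L⌉ : ℤ) : ℝ) := by
          rw [h3]
        rw [← h4]
        push_cast
        rfl
      rw [e]
      push_cast
      have h5 := Int.floor_le (c + L)
      have h6 := Int.le_ceil (c - L)
      linarith
    · have : (⌊c + L⌋ + 1 - ⌈c - L⌉).toNat = 0 := Int.toNat_eq_zero.2 h.le
      rw [this]
      push_cast
      linarith
  calc _ ≤ (((⌊c + L⌋ + 1 - ⌈c - L⌉).toNat : ℕ) : ℝ) := by exact_mod_cast h1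
    _ ≤ _ := h2

theorem coord_le (x : E2) (i : Fin 2) : |x i| ≤ ‖x‖ := by
  have := EuclideanSpace.norm_sq_eq x
  have h1 : |x i| ^ 2 ≤ ‖x‖ ^ 2 := by
    rw [this, sq_abs]
    have h2 : x i ^ 2 = ‖x i‖ ^ 2 := by rw [Real.norm_eq_abs, sq_abs]
    rw [h2]
    exact Finset.single_le_sum (f := fun j => ‖x j‖ ^ 2) (fun _ _ => sq_nonneg _) (mem_univ i)
  exact le_of_sq_le_sq h1 (norm_nonneg _)

theorem card_ball {M : ℕ} (hM : 0 < M) (P : E2) {ρ : ℝ} (hρ : 1 ≤ ρ * M) :
    ((univ.filter (fun a : Fin M × Fin M => ‖gp M a - P‖ ≤ ρ)).card : ℝ) ≤ 25 * ρ ^ 2 * M ^ 2 := by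
  classical
  have hM0 : (0 : ℝ) < M := by exact_mod_cast hM
  have hρ0 : 0 < ρ := by
    by_contra h
    push Not at h
    nlinarith
  set A : Fin 2 → Finset (Fin M) := fun t =>
    univ.filter (fun i : Fin M => |(i : ℝ) - (2 * M * (P t + 1 / 4))| ≤ 2 * M * ρ) with hA
  have hsub : univ.filter (fun a : Fin M × Fin M => ‖gp M a - P‖ ≤ ρ) ⊆ A 0 ×ˢ A 1 := by
    intro a ha
    have h1 : ‖gp M a - P‖ ≤ ρ := by simpa using ha
    have h2 : ∀ (t : Fin 2) (i : Fin M), (gp M a) t = (i : ℝ) / (2 * M) - 1 / 4 → i ∈ A t := by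
      intro t i hi
      simp only [hA, mem_filter, mem_univ, true_and]
      have h3 := (coord_le (gp M a - P) t).trans h1
      have e : (gp M a - P) t = (gp M a) t - P t := rfl
      rw [e, hi] at h3
      have e2 : (i : ℝ) - (2 * M * (P t + 1 / 4)) = (2 * M) * ((i : ℝ) / (2 * M) - 1 / 4 - P t) := by
        field_simp
        ring
      rw [e2, abs_mul, abs_of_pos (by positivity : (0:ℝ) < 2 * M)]
      gcongr
    rw [mem_product]
    exact ⟨h2 0 a.1 (by simp [gp]), h2 1 a.2 (by simp [gp])⟩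
  have hAc : ∀ t, ((A t).card : ℝ) ≤ 5 * (ρ * M) := by
    intro t
    have h1 := card_interval M (2 * M * (P t + 1 / 4)) (2 * M * ρ) (by positivity)
    simp only [hA]
    linarith
  calc _ ≤ (((A 0 ×ˢ A 1).card : ℕ) : ℝ) := by exact_mod_cast Finset.card_le_card hsub
    _ = ((A 0).card : ℝ) * (A 1).card := by rw [Finset.card_product]; push_cast; rfl
    _ ≤ (5 * (ρ * M)) * (5 * (ρ * M)) := by
        have := hAc 0
        have := hAc 1
        gcongr
    _ = _ := by ring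

theorem norm_gp {M : ℕ} (a : Fin M × Fin M) : ‖gp M a‖ ≤ 1 / 2 := by
  have hM : 0 < M := a.1.pos
  have hM0 : (0 : ℝ) < M := by exact_mod_cast hM
  have hc : ∀ i : Fin M, |(i : ℝ) / (2 * M) - 1 / 4| ≤ 1 / 4 := by
    intro i
    have h1 : (0 : ℝ) ≤ (i : ℝ) / (2 * M) := by positivity
    have h2 : (i : ℝ) / (2 * M) ≤ 1 / 2 := by
      rw [div_le_div_iff₀ (by positivity) (by norm_num)]
      have h3 : ((i : ℕ) : ℝ) ≤ M := by exact_mod_cast i.2.le
      linarith
    rw [abs_le]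
    constructor <;> linarith
  have h1 : ‖gp M a‖ ^ 2 ≤ (1 / 2) ^ 2 := by
    rw [EuclideanSpace.norm_sq_eq, Fin.sum_univ_two]
    have e0 : (gp M a) 0 = (a.1 : ℝ) / (2 * M) - 1 / 4 := by simp [gp]
    have e1 : (gp M a) 1 = (a.2 : ℝ) / (2 * M) - 1 / 4 := by simp [gp]
    rw [e0, e1, Real.norm_eq_abs, Real.norm_eq_abs]
    have h2 := pow_le_pow_left₀ (abs_nonneg _) (hc a.1) 2
    have h3 := pow_le_pow_left₀ (abs_nonneg _) (hc a.2) 2
    linarith
  exact le_of_sq_le_sq h1 (by norm_num)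

theorem gp_injective {M : ℕ} : Function.Injective (gp M) := by
  intro a b hab
  have hM : 0 < M := a.1.pos
  have hM0 : (0 : ℝ) < M := by exact_mod_cast hM
  have h0 := congrArg (fun x : E2 => x 0) hab
  have h1 := congrArg (fun x : E2 => x 1) hab
  simp only [gp] at h0 h1
  have e0 : (a.1 : ℝ) / (2 * M) - 1 / 4 = (b.1 : ℝ) / (2 * M) - 1 / 4 := by simpa using h0
  have e1 : (a.2 : ℝ) / (2 * M) - 1 / 4 = (b.2 : ℝ) / (2 * M) - 1 / 4 := by simpa using h1
  have f0 : ((a.1 : ℕ) : ℝ) = (b.1 : ℕ) := by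
    have : (a.1 : ℝ) / (2 * M) = (b.1 : ℝ) / (2 * M) := by linarith
    field_simp at this
    exact this
  have f1 : ((a.2 : ℕ) : ℝ) = (b.2 : ℕ) := by
    have : (a.2 : ℝ) / (2 * M) = (b.2 : ℝ) / (2 * M) := by linarith
    field_simp at this
    exact this
  have g0 : (a.1 : ℕ) = b.1 := by exact_mod_cast f0
  have g1 : (a.2 : ℕ) = b.2 := by exact_mod_cast f1
  exact Prod.ext (Fin.ext g0) (Fin.ext g1)

/-- The centres at distance at most `2 r` from the segment between two centres. -/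
noncomputable def Tn (M : ℕ) (r : ℝ) (a b : Fin M × Fin M) : Finset (Fin M × Fin M) := by
  classical
  exact univ.filter (fun g => ∃ t : ℝ, 0 ≤ t ∧ t ≤ 1 ∧
    ‖gp M g - ((1 - t) • gp M a + t • gp M b)‖ ≤ 2 * r)

theorem card_Tn {M : ℕ} {r : ℝ} (hr : 0 < r) (hr1 : r ≤ 1) (hM : 1 ≤ r * M) (a b : Fin M × Fin M) :
    ((Tn M r a b).card : ℝ) ≤ 450 * r * M ^ 2 := by
  classical
  have hM0 : 0 < M := a.1.pos
  have hMr : (0 : ℝ) < M := by exact_mod_cast hM0
  set J : ℕ := ⌊1 / r⌋₊ with hJ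
  set P : ℕ → E2 := fun j => (1 - j * r) • gp M a + (j * r) • gp M b with hP
  have hsub : Tn M r a b ⊆ (range (J + 1)).biUnion
      (fun j => univ.filter (fun g : Fin M × Fin M => ‖gp M g - P j‖ ≤ 3 * r)) := by
    intro g hg
    simp only [Tn, mem_filter, mem_univ, true_and] at hg
    obtain ⟨t, ht0, ht1, ht⟩ := hg
    rw [mem_biUnion]
    have htr : 0 ≤ t / r := by positivity
    refine ⟨⌊t / r⌋₊, ?_, ?_⟩
    · rw [mem_range, Nat.lt_succ_iff]
      apply Nat.floor_le_floor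
      gcongr
    · simp only [mem_filter, mem_univ, true_and, hP]
      set j := ⌊t / r⌋₊
      have h1 : (j : ℝ) ≤ t / r := Nat.floor_le htr
      have h2 : t / r < j + 1 := Nat.lt_floor_add_one _
      have h3 : (j : ℝ) * r ≤ t := by rwa [le_div_iff₀ hr] at h1
      have h4 : t ≤ (j : ℝ) * r + r := by
        rw [div_lt_iff₀ hr] at h2
        linarith
      have e : gp M g - ((1 - j * r) • gp M a + (j * r) • gp M b) =
          (gp M g - ((1 - t) • gp M a + t • gp M b)) + (t - j * r) • (gp M b - gp M a) := by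
        module
      rw [e]
      refine (norm_add_le _ _).trans ?_
      rw [norm_smul, Real.norm_eq_abs, abs_of_nonneg (by linarith)]
      have h5 : ‖gp M b - gp M a‖ ≤ 1 := by
        refine (norm_sub_le _ _).trans ?_
        have := norm_gp a
        have := norm_gp b
        linarith
      have h6 : (t - j * r) * ‖gp M b - gp M a‖ ≤ r * 1 := by
        gcongr
        linarith
      linarith
  have hJ1 : ((J : ℝ) + 1) ≤ 2 / r := by
    have h1 : (J : ℝ) ≤ 1 / r := Nat.floor_le (by positivity)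
    have h2 : 1 ≤ 1 / r := by rw [le_div_iff₀ hr]; linarith
    have e : 2 / r = 1 / r + 1 / r := by ring
    linarith
  calc ((Tn M r a b).card : ℝ) ≤ ((∑ j ∈ range (J + 1),
        (univ.filter (fun g : Fin M × Fin M => ‖gp M g - P j‖ ≤ 3 * r)).card : ℕ) : ℝ) := by
        exact_mod_cast (Finset.card_le_card hsub).trans Finset.card_biUnion_le
    _ = ∑ j ∈ range (J + 1),
        ((univ.filter (fun g : Fin M × Fin M => ‖gp M g - P j‖ ≤ 3 * r)).card : ℝ) := by
        push_cast; rfl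
    _ ≤ ∑ _j ∈ range (J + 1), 25 * (3 * r) ^ 2 * (M : ℝ) ^ 2 :=
        Finset.sum_le_sum (fun j _ => card_ball hM0 (P j) (by nlinarith))
    _ = ((J : ℝ) + 1) * (25 * (3 * r) ^ 2 * (M : ℝ) ^ 2) := by
        rw [Finset.sum_const, Finset.card_range, nsmul_eq_mul]
        push_cast
        ring
    _ ≤ (2 / r) * (25 * (3 * r) ^ 2 * (M : ℝ) ^ 2) := by gcongr
    _ = _ := by
        field_simp
        ring

/-- All disks with radius `r` and centres `x l`, `l ∈ S`, are met by one line. -/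
def Met {ι : Type} (r : ℝ) (x : ι → E2) (S : Finset ι) : Prop :=
  ∃ p u : E2, u ≠ 0 ∧ ∀ l ∈ S, ∃ s : ℝ, ‖(p + s • u) - x l‖ ≤ r

theorem met_ends {ι : Type} [DecidableEq ι] {r : ℝ} {x : ι → E2} {S : Finset ι} (hS : 2 ≤ S.card)
    (h : Met r x S) : ∃ i ∈ S, ∃ j ∈ S.erase i, ∀ l ∈ (S.erase i).erase j,
      ∃ t : ℝ, 0 ≤ t ∧ t ≤ 1 ∧ ‖x l - ((1 - t) • x i + t • x j)‖ ≤ 2 * r := by
  obtain ⟨p, u, -, h⟩ := h
  choose! s hs using h
  have hS0 : S.Nonempty := Finset.card_pos.1 (by omega)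
  obtain ⟨i, hi, hmin⟩ := Finset.exists_min_image S s hS0
  have hS1 : (S.erase i).Nonempty := by
    apply Finset.card_pos.1
    rw [Finset.card_erase_of_mem hi]
    omega
  obtain ⟨j, hj, hmax⟩ := Finset.exists_max_image (S.erase i) s hS1
  refine ⟨i, hi, j, hj, ?_⟩
  intro l hl
  have hl1 : l ∈ S.erase i := Finset.mem_of_mem_erase hl
  have hl2 : l ∈ S := Finset.mem_of_mem_erase hl1
  have hj2 : j ∈ S := Finset.mem_of_mem_erase hj
  have h1 := hmin l hl2
  have h2 := hmax l hl1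
  obtain ⟨t, ht0, ht1, ht⟩ : ∃ t : ℝ, 0 ≤ t ∧ t ≤ 1 ∧ s l = (1 - t) * s i + t * s j := by
    rcases eq_or_lt_of_le (h1.trans h2) with h3 | h3
    · refine ⟨0, le_rfl, zero_le_one, ?_⟩
      have : s l = s i := le_antisymm (h2.trans h3.ge) h1
      rw [this]; ring
    · have h4 : 0 < s j - s i := by linarith
      refine ⟨(s l - s i) / (s j - s i), by
        apply div_nonneg <;> linarith, by
        rw [div_le_one h4]; linarith, ?_⟩
      field_simp
      ring
  refine ⟨t, ht0, ht1, ?_⟩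
  have hL := hs l hl2
  have hI := hs i hi
  have hJ := hs j hj2
  have e : x l - ((1 - t) • x i + t • x j) =
      (1 - t) • ((p + s i • u) - x i) + t • ((p + s j • u) - x j) - ((p + s l • u) - x l) := by
    rw [ht]
    module
  rw [e]
  refine (norm_sub_le _ _).trans ?_
  have h5 : ‖(1 - t) • ((p + s i • u) - x i) + t • ((p + s j • u) - x j)‖ ≤ r := by
    refine (norm_add_le _ _).trans ?_
    rw [norm_smul, norm_smul, Real.norm_eq_abs, Real.norm_eq_abs, abs_of_nonneg ht0,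
      abs_of_nonneg (by linarith : 0 ≤ 1 - t)]
    have h6 : (1 - t) * ‖(p + s i • u) - x i‖ ≤ (1 - t) * r := by
      apply mul_le_mul_of_nonneg_left hI; linarith
    have h7 : t * ‖(p + s j • u) - x j‖ ≤ t * r := mul_le_mul_of_nonneg_left hJ ht0
    linarith
  linarith

end Pool.Agent.W2helper94.DK
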