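import Pool.Agent.W2helper94.DK.B

set_option autoImplicit false

/-!
The deletion argument.
-/

open Finset

namespace Pool.Agent.W2helper94.DK

/-- The number of families of centres for which the disks of the set `S` of indices are met by one
line. -/
theorem card_met {N M k : ℕ} (hk : 2 ≤ k) {r : ℝ} (hr : 0 < r) (hr1 : r ≤ 1) (hM : 1 ≤ r * M)
    {S : Finset (Fin N)} (hS : S.card = k + 1) :
    (Nat.card {f : Fin N → Fin M × Fin M // Met r (fun l => gp M (f l)) S} : ℝ) ≤
      ((k : ℝ) + 1) * k * (450 * r) ^ (k - 1) * (M ^ 2 : ℝ) ^ N := by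
  classical
  set t : ℕ := ⌊450 * r * (M : ℝ) ^ 2⌋₊ with ht
  have ht0 : (t : ℝ) ≤ 450 * r * (M : ℝ) ^ 2 := Nat.floor_le (by positivity)
  have hT : ∀ a b, (Tn M r a b).card ≤ t := by
    intro a b
    rw [ht, Nat.le_floor_iff (by positivity)]
    exact card_Tn hr hr1 hM a b
  have hq : Fintype.card (Fin M × Fin M) = M ^ 2 := by simp [sq]
  have hSN : k + 1 ≤ N := by
    have := Finset.card_le_univ S
    rw [hS] at this
    simpa using this
  rw [Nat.card_eq_fintype_card, Fintype.card_subtype]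
  have hsub : univ.filter (fun f : Fin N → Fin M × Fin M => Met r (fun l => gp M (f l)) S) ⊆
      S.biUnion (fun i => (S.erase i).biUnion (fun j =>
        univ.filter (fun f : Fin N → Fin M × Fin M => ∀ l ∈ (S.erase i).erase j,
          f l ∈ Tn M r (f i) (f j)))) := by
    intro f hf
    have hf' : Met r (fun l => gp M (f l)) S := by simpa using hf
    obtain ⟨i, hi, j, hj, h⟩ := met_ends (by omega) hf'
    rw [mem_biUnion]
    refine ⟨i, hi, ?_⟩
    rw [mem_biUnion]
    refine ⟨j, hj, ?_⟩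
    rw [mem_filter]
    refine ⟨mem_univ _, fun l hl => ?_⟩
    simp only [Tn, mem_filter, mem_univ, true_and]
    exact h l hl
  have hcard : (univ.filter (fun f : Fin N → Fin M × Fin M =>
      Met r (fun l => gp M (f l)) S)).card ≤ (k + 1) * (k * (t ^ (k - 1) * (M ^ 2) ^ (N - (k - 1)))) := by
    refine (Finset.card_le_card hsub).trans ?_
    refine Finset.card_biUnion_le.trans ?_
    calc ∑ i ∈ S, ((S.erase i).biUnion (fun j => univ.filter (fun f : Fin N → Fin M × Fin M =>
          ∀ l ∈ (S.erase i).erase j, f l ∈ Tn M r (f i) (f j)))).card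
        ≤ ∑ _i ∈ S, k * (t ^ (k - 1) * (M ^ 2) ^ (N - (k - 1))) := by
          apply Finset.sum_le_sum
          intro i hi
          refine Finset.card_biUnion_le.trans ?_
          calc ∑ j ∈ S.erase i, (univ.filter (fun f : Fin N → Fin M × Fin M =>
                ∀ l ∈ (S.erase i).erase j, f l ∈ Tn M r (f i) (f j))).card
              ≤ ∑ _j ∈ S.erase i, t ^ (k - 1) * (M ^ 2) ^ (N - (k - 1)) := by
                apply Finset.sum_le_sum
                intro j hj
                have hij : i ≠ j := fun h => by simp [h] at hj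
                have h1 := card_restricted (Tn M r) t hT i j hij ((S.erase i).erase j)
                  (by simp) (by simp)
                have h2 : ((S.erase i).erase j).card = k - 1 := by
                  rw [Finset.card_erase_of_mem hj, Finset.card_erase_of_mem hi, hS]
                  omega
                rw [h2, hq, Fintype.card_fin] at h1
                refine le_trans (le_of_eq ?_) h1
                congr
            _ = _ := by
                rw [Finset.sum_const, Finset.card_erase_of_mem hi, hS, smul_eq_mul, Nat.add_sub_cancel]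
      _ = _ := by rw [Finset.sum_const, hS, smul_eq_mul]
  calc ((univ.filter (fun f : Fin N → Fin M × Fin M => Met r (fun l => gp M (f l)) S)).card : ℝ)
      ≤ (((k + 1) * (k * (t ^ (k - 1) * (M ^ 2) ^ (N - (k - 1)))) : ℕ) : ℝ) := by exact_mod_cast hcard
    _ = ((k : ℝ) + 1) * (k * ((t : ℝ) ^ (k - 1) * ((M : ℝ) ^ 2) ^ (N - (k - 1)))) := by push_cast; ring
    _ ≤ ((k : ℝ) + 1) * (k * ((450 * r * (M : ℝ) ^ 2) ^ (k - 1) * ((M : ℝ) ^ 2) ^ (N - (k - 1)))) := by
        gcongr
    _ = ((k : ℝ) + 1) * k * (450 * r) ^ (k - 1) *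
          (((M : ℝ) ^ 2) ^ (k - 1) * ((M : ℝ) ^ 2) ^ (N - (k - 1))) := by
        rw [mul_pow (450 * r)]
        ring
    _ = _ := by
        rw [← pow_add, Nat.add_sub_cancel' (by omega)]

/-- The existence of the family before deletion. -/
theorem exists_family {N k : ℕ} (hk : 2 ≤ k) {r B : ℝ} (hr : 0 < r) (hr1 : r ≤ 1)
    (hB : (N.choose (k + 1) : ℝ) * (((k : ℝ) + 1) * k * (450 * r) ^ (k - 1)) ≤ B) :
    ∃ (M : ℕ) (f : Fin N → Fin M × Fin M) (R : Finset (Fin N)), (R.card : ℝ) ≤ B + 1 ∧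
      (∀ S : Finset (Fin N), S.card = k + 1 → Met r (fun l => gp M (f l)) S → ∃ l ∈ S, l ∈ R) ∧
      (∀ i j, i ≠ j → f i = f j → i ∈ R) := by
  classical
  obtain ⟨M, hM⟩ : ∃ M : ℕ, 1 / r ≤ M ∧ (N : ℝ) + 1 ≤ M := by
    obtain ⟨M, hM⟩ := exists_nat_ge (max (1 / r) ((N : ℝ) + 1))
    exact ⟨M, (le_max_left _ _).trans hM, (le_max_right _ _).trans hM⟩
  have hM1 : 1 ≤ r * M := by
    have := hM.1
    rw [div_le_iff₀ hr] at this
    linarith
  have hMr : (0 : ℝ) < M := by
    have : (0:ℝ) ≤ N := Nat.cast_nonneg N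
    linarith [hM.2]
  have hM0 : 0 < M := by exact_mod_cast hMr
  have hNM : (N : ℝ) ≤ M := by linarith [hM.2]
  have : Nonempty (Fin M × Fin M) := ⟨(⟨0, hM0⟩, ⟨0, hM0⟩)⟩
  set Ω := Fin N → Fin M × Fin M with hΩ
  have hcΩ : (Fintype.card Ω : ℝ) = ((M : ℝ) ^ 2) ^ N := by
    show (Fintype.card (Fin N → Fin M × Fin M) : ℝ) = ((M : ℝ) ^ 2) ^ N
    rw [Fintype.card_fun, Fintype.card_fin, Fintype.card_prod, Fintype.card_fin]
    push_cast
    ring
  -- the bad sets and the coincidences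
  set X1 : Ω → Finset (Finset (Fin N)) := fun f =>
    (powersetCard (k + 1) univ).filter (fun S => Met r (fun l => gp M (f l)) S) with hX1
  set X2 : Ω → Finset (Fin N × Fin N) := fun f =>
    (univ.offDiag).filter (fun p => f p.1 = f p.2) with hX2
  have hs1 : (∑ f, ((X1 f).card : ℝ)) ≤ B * Fintype.card Ω := by
    have e1 : (∑ f, ((X1 f).card : ℝ)) = ∑ S ∈ powersetCard (k + 1) (univ : Finset (Fin N)),
        (Nat.card {f : Ω // Met r (fun l => gp M (f l)) S} : ℝ) := by
      have e2 : ∀ f, ((X1 f).card : ℝ) = ∑ S ∈ powersetCard (k + 1) (univ : Finset (Fin N)),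
          (if Met r (fun l => gp M (f l)) S then (1:ℝ) else 0) := by
        intro f
        simp only [hX1]
        rw [Finset.card_filter]
        push_cast
        rfl
      rw [Finset.sum_congr rfl (fun f _ => e2 f), Finset.sum_comm]
      refine Finset.sum_congr rfl fun S _ => ?_
      rw [Nat.card_eq_fintype_card, Fintype.card_subtype, Finset.card_filter]
      push_cast
      rfl
    rw [e1]
    calc _ ≤ ∑ _S ∈ powersetCard (k + 1) (univ : Finset (Fin N)),
          ((k : ℝ) + 1) * k * (450 * r) ^ (k - 1) * (M ^ 2 : ℝ) ^ N := by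
          apply Finset.sum_le_sum
          intro S hS
          exact card_met hk hr hr1 hM1 (Finset.mem_powersetCard.1 hS).2
      _ = ((N.choose (k + 1) : ℝ) * (((k : ℝ) + 1) * k * (450 * r) ^ (k - 1))) *
            Fintype.card Ω := by
          rw [Finset.sum_const, Finset.card_powersetCard, Finset.card_univ, Fintype.card_fin,
            nsmul_eq_mul, hcΩ]
          ring
      _ ≤ _ := by gcongr
  have hs2 : (∑ f, ((X2 f).card : ℝ)) ≤ 1 * Fintype.card Ω := by
    have e1 : (∑ f, ((X2 f).card : ℝ)) = ∑ p ∈ (univ : Finset (Fin N)).offDiag,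
        ((univ.filter (fun f : Ω => f p.1 = f p.2)).card : ℝ) := by
      have e2 : ∀ f, ((X2 f).card : ℝ) = ∑ p ∈ (univ : Finset (Fin N)).offDiag,
          (if f p.1 = f p.2 then (1:ℝ) else 0) := by
        intro f
        simp only [hX2]
        rw [Finset.card_filter]
        push_cast
        rfl
      rw [Finset.sum_congr rfl (fun f _ => e2 f), Finset.sum_comm]
      refine Finset.sum_congr rfl fun S _ => ?_
      rw [Finset.card_filter]
      push_cast
      rfl
    rw [e1]
    rcases Nat.eq_zero_or_pos N with hN | hN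
    · subst hN
      simp
    calc _ ≤ ∑ _p ∈ (univ : Finset (Fin N)).offDiag, ((M : ℝ) ^ 2) ^ (N - 1) := by
          apply Finset.sum_le_sum
          intro p hp
          have h1 := card_eq_pair (G := Fin M × Fin M) p.1 p.2 (Finset.mem_offDiag.1 hp).2.2
          rw [Fintype.card_prod, Fintype.card_fin, Fintype.card_fin] at h1
          have h2 : ((univ.filter (fun f : Ω => f p.1 = f p.2)).card : ℝ) ≤
              (((M * M) ^ (N - 1) : ℕ) : ℝ) := by exact_mod_cast h1
          refine h2.trans (le_of_eq ?_)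
          push_cast
          ring
      _ = ((univ : Finset (Fin N)).offDiag.card : ℝ) * ((M : ℝ) ^ 2) ^ (N - 1) := by
          rw [Finset.sum_const, nsmul_eq_mul]
      _ ≤ ((M : ℝ) ^ 2) * ((M : ℝ) ^ 2) ^ (N - 1) := by
          gcongr
          rw [Finset.offDiag_card, Finset.card_univ, Fintype.card_fin]
          have h3 : ((N * N - N : ℕ) : ℝ) ≤ ((N * N : ℕ) : ℝ) := by
            exact_mod_cast Nat.sub_le _ _
          refine h3.trans ?_
          push_cast
          nlinarith [(Nat.cast_nonneg N : (0:ℝ) ≤ N)]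
      _ = _ := by
          rw [hcΩ, one_mul, ← pow_succ']
          congr 1
          omega
  obtain ⟨f, hf⟩ := exists_le_avg (fun f => (X1 f).card + (X2 f).card) (B := B + 1) (by
    push_cast
    rw [Finset.sum_add_distrib, add_mul]
    exact add_le_add hs1 hs2)
  have hne : ∀ S ∈ X1 f, S.Nonempty := by
    intro S hS
    simp only [hX1, mem_filter, mem_powersetCard] at hS
    apply Finset.card_pos.1
    omega
  set R1 : Finset (Fin N) := (X1 f).attach.image (fun S => (hne S.1 S.2).choose) with hR1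
  set R2 : Finset (Fin N) := (X2 f).image Prod.fst with hR2
  refine ⟨M, f, R1 ∪ R2, ?_, ?_, ?_⟩
  · have h1 : (R1 ∪ R2).card ≤ (X1 f).card + (X2 f).card := by
      refine (Finset.card_union_le _ _).trans (add_le_add ?_ Finset.card_image_le)
      refine Finset.card_image_le.trans ?_
      rw [Finset.card_attach]
    calc ((R1 ∪ R2).card : ℝ) ≤ (((X1 f).card + (X2 f).card : ℕ) : ℝ) := by exact_mod_cast h1
      _ ≤ B + 1 := hf
  · intro S hS hm
    have hSX : S ∈ X1 f := by
      simp only [hX1, mem_filter, mem_powersetCard]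
      exact ⟨⟨subset_univ _, hS⟩, hm⟩
    refine ⟨(hne S hSX).choose, (hne S hSX).choose_spec, ?_⟩
    apply Finset.mem_union_left
    rw [hR1, mem_image]
    exact ⟨⟨S, hSX⟩, mem_attach _ _, rfl⟩
  · intro i j hij h
    apply Finset.mem_union_right
    rw [hR2, mem_image]
    refine ⟨(i, j), ?_, rfl⟩
    simp only [hX2, mem_filter, mem_offDiag, mem_univ, true_and]
    exact ⟨hij, h⟩

/-- `n` distinct disks of radius `r` in the unit disk such that every line meets at most `k`. -/
theorem exists_disks {k n : ℕ} (hk : 2 ≤ k) (hn : 1 ≤ n) {r : ℝ} (hr : 0 < r) (hr1 : r ≤ 1 / 2)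
    (hB : ((2 * n + 1 : ℕ).choose (k + 1) : ℝ) * (((k : ℝ) + 1) * k * (450 * r) ^ (k - 1)) ≤ n) :
    ∃ x : Fin n → E2, Function.Injective x ∧ (∀ i, ‖x i‖ ≤ 1 / 2) ∧
      ∀ S : Finset (Fin n), S.card = k + 1 → ¬ Met r x S := by
  classical
  obtain ⟨M, f, R, hR, h1, h2⟩ := exists_family (N := 2 * n + 1) hk hr (by linarith) hB
  have hR' : R.card ≤ n + 1 := by exact_mod_cast hR
  have hc : n ≤ (univ \ R).card := by
    rw [Finset.card_sdiff_of_subset (subset_univ _), Finset.card_univ, Fintype.card_fin]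
    omega
  obtain ⟨A, hA, hAc⟩ := Finset.exists_subset_card_eq hc
  set e := A.orderEmbOfFin hAc with he
  have heA : ∀ i, e i ∉ R := by
    intro i
    have h3 : e i ∈ A := Finset.orderEmbOfFin_mem A hAc i
    have h4 := hA h3
    rw [mem_sdiff] at h4
    exact h4.2
  refine ⟨fun i => gp M (f (e i)), ?_, fun i => norm_gp _, ?_⟩
  · intro i j hij
    have h3 : f (e i) = f (e j) := gp_injective hij
    by_contra hne
    exact heA i (h2 (e i) (e j) (fun h => hne (e.injective h)) h3)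
  · intro S hS hm
    have h3 : (S.map e.toEmbedding).card = k + 1 := by rw [Finset.card_map, hS]
    have h4 : Met r (fun l => gp M (f l)) (S.map e.toEmbedding) := by
      obtain ⟨p, u, hu, h⟩ := hm
      refine ⟨p, u, hu, fun l hl => ?_⟩
      rw [Finset.mem_map] at hl
      obtain ⟨i, hi, rfl⟩ := hl
      exact h i hi
    obtain ⟨l, hl, hlR⟩ := h1 _ h3 h4
    rw [Finset.mem_map] at hl
    obtain ⟨i, hi, rfl⟩ := hl
    exact heA i hlR

/-- The numerical estimate. -/
theorem numeric {k n : ℕ} (hk : 2 ≤ k) (hn : 1 ≤ n) {r : ℝ} (hr0 : 0 < r)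
    (hr : r ^ (k - 1) * (n : ℝ) ^ k ≤ ((k : ℝ) / 86400) ^ (k - 1)) :
    ((2 * n + 1 : ℕ).choose (k + 1) : ℝ) * (((k : ℝ) + 1) * k * (450 * r) ^ (k - 1)) ≤ n := by
  obtain ⟨m, rfl⟩ : ∃ m, k = m + 1 := ⟨k - 1, by omega⟩
  have hm : 1 ≤ m := by omega
  have hn0 : (0 : ℝ) < n := by exact_mod_cast hn
  have hm0 : (0 : ℝ) < m := by exact_mod_cast hm
  have hfac : (((m + 1 + 1).factorial : ℕ) : ℝ) = (((m + 1 : ℕ) : ℝ) + 1) * ((m + 1 : ℕ) : ℝ) *
      (m.factorial : ℝ) := by
    rw [Nat.factorial_succ, Nat.factorial_succ]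
    push_cast
    ring
  have hf0 : (0 : ℝ) < (m.factorial : ℝ) := by exact_mod_cast m.factorial_pos
  have h1 : ((2 * n + 1 : ℕ).choose (m + 1 + 1) : ℝ) ≤
      ((2 * n + 1 : ℕ) : ℝ) ^ (m + 1 + 1) / ((m + 1 + 1).factorial : ℕ) := Nat.choose_le_pow_div _ _
  have h2 : ((2 * n + 1 : ℕ) : ℝ) ≤ 3 * n := by
    push_cast
    have : (1 : ℝ) ≤ n := by exact_mod_cast hn
    linarith
  have h3 : (m : ℝ) ^ m ≤ Real.exp m * m.factorial := by
    have := Real.pow_div_factorial_le_exp (m : ℝ) hm0.le m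
    rwa [div_le_iff₀ hf0] at this
  have h4 : Real.exp m ≤ 3 ^ m := by
    have e : Real.exp m = (Real.exp 1) ^ m := by
      rw [← Real.exp_nat_mul, mul_one]
    rw [e]
    exact pow_le_pow_left₀ (Real.exp_pos _).le (by linarith [Real.exp_one_lt_d9]) m
  rw [Nat.add_sub_cancel] at hr ⊢
  -- combine
  have h5 : ((2 * n + 1 : ℕ).choose (m + 1 + 1) : ℝ) *
      ((((m + 1 : ℕ) : ℝ) + 1) * ((m + 1 : ℕ) : ℝ) * (450 * r) ^ m) ≤
      (3 * n) ^ (m + 1 + 1) * (450 * r) ^ m / m.factorial := by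
    calc _ ≤ (((2 * n + 1 : ℕ) : ℝ) ^ (m + 1 + 1) / ((m + 1 + 1).factorial : ℕ)) *
          ((((m + 1 : ℕ) : ℝ) + 1) * ((m + 1 : ℕ) : ℝ) * (450 * r) ^ m) := by gcongr
      _ = ((2 * n + 1 : ℕ) : ℝ) ^ (m + 1 + 1) * (450 * r) ^ m / m.factorial := by
          rw [hfac]
          field_simp
      _ ≤ _ := by gcongr
  refine h5.trans ?_
  rw [div_le_iff₀ hf0]
  have h6 : (3 * (n : ℝ)) ^ (m + 1 + 1) * (450 * r) ^ m =
      9 * n * (1350 ^ m * (r ^ m * (n : ℝ) ^ (m + 1))) := by
    have e : (1350 : ℝ) = 3 * 450 := by norm_num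
    rw [e, mul_pow, mul_pow, mul_pow, pow_succ, pow_succ, pow_succ]
    ring
  rw [h6]
  have h7 : (1350 : ℝ) ^ m * (r ^ m * (n : ℝ) ^ (m + 1)) ≤ 1350 ^ m *
      (((m + 1 : ℕ) : ℝ) / 86400) ^ m := by gcongr
  have h8 : ((m + 1 : ℕ) : ℝ) ≤ 2 * m := by
    push_cast
    have : (1 : ℝ) ≤ m := by exact_mod_cast hm
    linarith
  have h9 : (1350 : ℝ) ^ m * (((m + 1 : ℕ) : ℝ) / 86400) ^ m ≤ (3 / 32) ^ m * (m.factorial : ℝ) := by
    calc (1350 : ℝ) ^ m * (((m + 1 : ℕ) : ℝ) / 86400) ^ m ≤ 1350 ^ m * ((2 * m) / 86400) ^ m := by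
          gcongr
      _ = (1 / 32) ^ m * (m : ℝ) ^ m := by
          rw [← mul_pow, ← mul_pow]
          congr 1
          ring
      _ ≤ (1 / 32) ^ m * (Real.exp m * m.factorial) := by gcongr
      _ ≤ (1 / 32) ^ m * (3 ^ m * m.factorial) := by gcongr
      _ = _ := by
          rw [← mul_assoc, ← mul_pow]
          norm_num
  have h10 : ((3 : ℝ) / 32) ^ m ≤ 3 / 32 := by
    calc ((3 : ℝ) / 32) ^ m ≤ (3 / 32) ^ 1 := pow_le_pow_of_le_one (by norm_num) (by norm_num) hm
      _ = 3 / 32 := by norm_num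
  calc 9 * (n : ℝ) * (1350 ^ m * (r ^ m * (n : ℝ) ^ (m + 1)))
      ≤ 9 * n * ((3 / 32) ^ m * (m.factorial : ℝ)) := by
        apply mul_le_mul_of_nonneg_left (h7.trans h9) (by positivity)
    _ ≤ 9 * n * ((3 / 32) * (m.factorial : ℝ)) := by gcongr
    _ ≤ n * (m.factorial : ℝ) := by nlinarith [mul_pos hn0 hf0]

end Pool.Agent.W2helper94.DK
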